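import Pool.Agent.ARC.Stmts

/-!
Row SLB of squad ARC: bound of the slices.
-/

set_option autoImplicit false

namespace Pool.Agent.ARC.H97

open scoped BigOperators
open Pool.Agent.THS Pool.Agent.ZES Pool.Agent.ARC
open Pool.Agent.SZG (Ch)

/-- A coefficient of an absolutely convergent Fourier series is bounded by the supremum. -/
theorem fourier_bound (b : ℤ → ℂ) (hb : Summable (fun j : ℤ => ‖b j‖)) (c : ℝ)
    (hc : ∀ t : ℝ, ‖∑' j : ℤ, Complex.exp (2 * Real.pi * Complex.I * t * j) * b j‖ ≤ c) (j₀ : ℤ) :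
    ‖b j₀‖ ≤ c := by
  have hcoef : ∀ (t : ℝ) (m : ℤ), ‖Complex.exp (2 * Real.pi * Complex.I * t * m)‖ = 1 := by
    intro t m
    have h : (2 * Real.pi * Complex.I * t * m : ℂ) = ((2 * Real.pi * t * m : ℝ) : ℂ) * Complex.I := by
      push_cast; ring
    rw [h, Complex.norm_exp_ofReal_mul_I]
  have hsum : ∀ t : ℝ, Summable (fun j : ℤ =>
      Complex.exp (2 * Real.pi * Complex.I * t * j) * b j) := by
    intro t
    refine Summable.of_norm ?_
    simpa only [norm_mul, hcoef, one_mul] using hb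
  set F : ℤ → ℝ → ℂ := fun n t =>
    Complex.exp (-(2 * Real.pi * Complex.I * t * j₀)) *
      (Complex.exp (2 * Real.pi * Complex.I * t * n) * b n) with hF
  set f : ℝ → ℂ := fun t => Complex.exp (-(2 * Real.pi * Complex.I * t * j₀)) *
    ∑' n : ℤ, Complex.exp (2 * Real.pi * Complex.I * t * n) * b n with hf
  have hneg : ∀ t : ℝ, ‖Complex.exp (-(2 * Real.pi * Complex.I * t * j₀))‖ = 1 := by
    intro t
    rw [Complex.exp_neg, norm_inv, hcoef, inv_one]
  have hFn : ∀ n t, ‖F n t‖ = ‖b n‖ := by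
    intro n t
    simp only [hF, norm_mul, hcoef, hneg, one_mul]
  have hHS := intervalIntegral.hasSum_integral_of_dominated_convergence
    (μ := MeasureTheory.volume) (a := 0) (b := 1) (F := F) (f := f)
    (fun n _ => ‖b n‖) (fun n => by
      apply Continuous.aestronglyMeasurable
      simp only [hF]
      fun_prop)
    (fun n => Filter.Eventually.of_forall fun t _ => (hFn n t).le)
    (Filter.Eventually.of_forall fun t _ => hb)
    (by simp)
    (Filter.Eventually.of_forall fun t _ => (hsum t).hasSum.mul_left _)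
  have hint : ∀ n : ℤ, ∫ t in (0 : ℝ)..1, F n t = if n = j₀ then b j₀ else 0 := by
    intro n
    have h1 : ∀ t : ℝ, F n t =
        Complex.exp ((2 * Real.pi * Complex.I * (n - j₀)) * t) * b n := by
      intro t
      simp only [hF]
      rw [← mul_assoc, ← Complex.exp_add]
      congr 2
      ring
    simp only [h1]
    rw [intervalIntegral.integral_mul_const]
    split_ifs with h
    · subst h
      simp
    · have hne : (2 * Real.pi * Complex.I * (n - j₀) : ℂ) ≠ 0 := by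
        have : (n : ℂ) - j₀ ≠ 0 := by
          rw [sub_ne_zero]
          exact_mod_cast h
        exact mul_ne_zero (mul_ne_zero (mul_ne_zero two_ne_zero
          (Complex.ofReal_ne_zero.2 Real.pi_ne_zero)) Complex.I_ne_zero) this
      rw [integral_exp_mul_complex hne]
      have h2 : Complex.exp ((2 * Real.pi * Complex.I * (n - j₀)) * ((1 : ℝ) : ℂ)) = 1 := by
        have := Complex.exp_int_mul_two_pi_mul_I (n - j₀)
        rw [← this]
        congr 1
        push_cast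
        ring
      rw [h2]
      simp
  simp only [hint] at hHS
  have hval : (∫ t in (0 : ℝ)..1, f t) = b j₀ := by
    have h3 : HasSum (fun n : ℤ => if n = j₀ then b j₀ else 0) (b j₀) := by
      simpa using hasSum_ite_eq j₀ (b j₀)
    exact hHS.unique h3
  rw [← hval]
  have h4 := intervalIntegral.norm_integral_le_of_norm_le_const (a := (0 : ℝ)) (b := 1) (f := f)
    (C := c) (fun t _ => by
      simp only [hf, norm_mul, hneg, one_mul]
      exact hc t)
  simpa using h4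

/-- step 1 -/
theorem slice_le (hs : SupStmt) (hl : SlsStmt) {g : ℕ} {τ : Matrix (Fin g) (Fin g) ℂ}
    (hτ : Siegel τ) (a : Ch g) (h : Fin g → ℤ) (w : Fin g → ℂ) (y : Fin g → ℝ)
    (hw : ∀ i, (w i).im = Yv τ y i) (j : ℤ) :
    ‖sl τ a h j w‖ ≤ 2 ^ g * t0 τ * Real.exp (8 * Real.pi * Yq τ y) := by
  obtain ⟨hl1, hl2⟩ := hl g τ hτ a h
  refine fourier_bound (fun j => sl τ a h j w) (hl1 w).1 _ ?_ j
  intro t
  have hw' : ∀ i, ((fun i => w i + ((t / 4 : ℝ) : ℂ) * (h i : ℂ) + (((0 : Fin g → ℤ) i : ℤ) : ℂ)) i).im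
      = Yv τ y i := by
    intro i
    rw [← hw i]
    simp
  have hS := hs g τ hτ a _ y hw'
  rw [(hl1 _).2] at hS
  have h1 : ∀ j : ℤ, sl τ a h j (fun i => w i + ((t / 4 : ℝ) : ℂ) * (h i : ℂ) +
      (((0 : Fin g → ℤ) i : ℤ) : ℂ)) =
      Complex.exp (2 * Real.pi * Complex.I * t * ((dt h (hv a) : ℝ) : ℂ)) *
      (Complex.exp (2 * Real.pi * Complex.I * t * j) * sl τ a h j w) := by
    intro j
    rw [hl2 j w ((t / 4 : ℝ) : ℂ) 0, ← mul_assoc, ← Complex.exp_add]
    congr 2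
    push_cast
    ring
  simp only [h1, tsum_mul_left, norm_mul] at hS
  have h2 : ‖Complex.exp (2 * Real.pi * Complex.I * t * ((dt h (hv a) : ℝ) : ℂ))‖ = 1 := by
    have h3 : (2 * Real.pi * Complex.I * t * ((dt h (hv a) : ℝ) : ℂ) : ℂ) =
        ((2 * Real.pi * t * dt h (hv a) : ℝ) : ℂ) * Complex.I := by
      push_cast; ring
    rw [h3, Complex.norm_exp_ofReal_mul_I]
  rw [h2, one_mul] at hS
  exact hS

theorem Yv_add {g : ℕ} (τ : Matrix (Fin g) (Fin g) ℂ) (y r : Fin g → ℝ) (c : ℝ) (i : Fin g) :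
    Yv τ (fun i => y i + c * r i) i = Yv τ y i + c * Yv τ r i := by
  simp only [Yv, mul_add, Finset.sum_add_distrib, Finset.mul_sum]
  congr 1
  exact Finset.sum_congr rfl fun j _ => by ring

theorem Yq_eq {g : ℕ} (τ : Matrix (Fin g) (Fin g) ℂ) (y : Fin g → ℝ) :
    Yq τ y = ∑ i, y i * Yv τ y i := by
  simp only [Yq, Yv, Finset.mul_sum]
  exact Finset.sum_congr rfl fun i _ => Finset.sum_congr rfl fun j _ => by ring

theorem symm_Y {g : ℕ} {τ : Matrix (Fin g) (Fin g) ℂ} (hτ : Siegel τ) (y r : Fin g → ℝ) :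
    ∑ i, y i * Yv τ r i = ∑ i, r i * Yv τ y i := by
  simp only [Yv, Finset.mul_sum]
  rw [Finset.sum_comm]
  refine Finset.sum_congr rfl fun i _ => Finset.sum_congr rfl fun j _ => ?_
  have h : τ j i = τ i j := by
    have := congrFun (congrFun hτ.1 i) j
    rwa [Matrix.transpose_apply] at this
  rw [h]
  ring

theorem Yq_add {g : ℕ} {τ : Matrix (Fin g) (Fin g) ℂ} (hτ : Siegel τ) (y r : Fin g → ℝ) (c : ℝ)
    (h : Fin g → ℤ) (hr : ∀ i, Yv τ r i = (h i : ℝ)) :
    Yq τ (fun i => y i + c * r i) = Yq τ y + 2 * c * dt h y + c ^ 2 * Yq τ r := by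
  have h1 : dt h y = ∑ i, y i * Yv τ r i := by
    simp only [dt, hr]
    exact Finset.sum_congr rfl fun i _ => by ring
  have h2 := symm_Y hτ y r
  rw [Yq_eq τ (fun i => y i + c * r i)]
  simp only [Yv_add]
  have h3 : ∀ i, (y i + c * r i) * (Yv τ y i + c * Yv τ r i) =
      y i * Yv τ y i + c * (y i * Yv τ r i) + c * (r i * Yv τ y i) + c ^ 2 * (r i * Yv τ r i) := by
    intro i; ring
  simp only [h3, Finset.sum_add_distrib, ← Finset.mul_sum]
  rw [← h2, ← h1, ← Yq_eq, ← Yq_eq]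
  ring

theorem exists_r {g : ℕ} {τ : Matrix (Fin g) (Fin g) ℂ} (hτ : Siegel τ) (h : Fin g → ℤ)
    (hh : h ≠ 0) : ∃ r : Fin g → ℝ, (∀ i, Yv τ r i = (h i : ℝ)) ∧ 0 < Yq τ r ∧
      dt h r = Yq τ r := by
  have hu : IsUnit (τ.map Complex.im) := hτ.2.isUnit
  set r : Fin g → ℝ := (τ.map Complex.im)⁻¹.mulVec (fun i => (h i : ℝ)) with hr
  have h1 : (τ.map Complex.im).mulVec r = fun i => (h i : ℝ) := by
    rw [hr, Matrix.mulVec_mulVec, Matrix.mul_nonsing_inv _
      ((Matrix.isUnit_iff_isUnit_det _).1 hu), Matrix.one_mulVec]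
  have h2 : ∀ i, Yv τ r i = (h i : ℝ) := by
    intro i
    have := congrFun h1 i
    simpa [Matrix.mulVec, dotProduct, Yv] using this
  have hr0 : r ≠ 0 := by
    intro h0
    apply hh
    funext i
    have := h2 i
    rw [h0] at this
    simp [Yv] at this
    exact_mod_cast this.symm
  have h3 : dt h r = Yq τ r := by
    rw [Yq_eq]
    simp only [dt, h2]
    exact Finset.sum_congr rfl fun i _ => by ring
  refine ⟨r, h2, ?_, h3⟩
  have h4 := hτ.2.dotProduct_mulVec_pos hr0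
  have h5 : star r ⬝ᵥ (τ.map Complex.im).mulVec r = Yq τ r := by
    rw [Yq_eq]
    simp [dotProduct, Matrix.mulVec, Yv]
  rw [h5] at h4
  exact h4

/-- **SLB** -/
theorem slb (hs : SupStmt) (hl : SlsStmt) : SlbStmt := by
  intro g τ hτ a h lam hh hlam w y hw j
  obtain ⟨r, hr, hρ, hdt⟩ := exists_r hτ h hh
  set ρ := Yq τ r with hρdef
  have h1 : lam * ρ ≤ 1 := by
    have := hlam r
    rw [hdt] at this
    nlinarith
  set X : ℝ := (j : ℝ) + dt h (hv a) + 2 * dt h y with hX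
  set θ : ℝ := -(2 * X / ρ) with hθ
  have hw' : ∀ i, ((fun i => w i + (Complex.I * ((θ / 4 : ℝ) : ℂ)) * (h i : ℂ) +
      (((0 : Fin g → ℤ) i : ℤ) : ℂ)) i).im = Yv τ (fun i => y i + (θ / 4) * r i) i := by
    intro i
    rw [Yv_add, hr, ← hw i]
    simp
  have h2 := slice_le hs hl hτ a h _ _ hw' j
  rw [(hl g τ hτ a h).2 j w (Complex.I * ((θ / 4 : ℝ) : ℂ)) 0, norm_mul,
    Yq_add hτ y r (θ / 4) h hr] at h2
  have h3 : ‖Complex.exp (8 * Real.pi * Complex.I * (Complex.I * ((θ / 4 : ℝ) : ℂ)) *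
      ((j : ℂ) + ((dt h (hv a) : ℝ) : ℂ)))‖ =
      Real.exp (-(2 * Real.pi * θ * ((j : ℝ) + dt h (hv a)))) := by
    have h4 : (8 * Real.pi * Complex.I * (Complex.I * ((θ / 4 : ℝ) : ℂ)) *
      ((j : ℂ) + ((dt h (hv a) : ℝ) : ℂ)) : ℂ) =
        ((-(2 * Real.pi * θ * ((j : ℝ) + dt h (hv a))) : ℝ) : ℂ) := by
      have h5 : (8 * Real.pi * Complex.I * (Complex.I * ((θ / 4 : ℝ) : ℂ)) *
        ((j : ℂ) + ((dt h (hv a) : ℝ) : ℂ)) : ℂ) = (Complex.I * Complex.I) *
          (2 * Real.pi * θ * ((j : ℂ) + ((dt h (hv a) : ℝ) : ℂ))) := by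
        push_cast; ring
      rw [h5, Complex.I_mul_I]
      push_cast; ring
    rw [h4, Complex.norm_exp_ofReal]
  rw [h3] at h2
  have ht0 : 0 ≤ 2 ^ g * t0 τ := by
    have : 0 ≤ t0 τ := Real.iSup_nonneg fun c => norm_nonneg _
    positivity
  have h6 : ‖sl τ a h j w‖ ≤ 2 ^ g * t0 τ * Real.exp (8 * Real.pi *
      (Yq τ y + 2 * (θ / 4) * dt h y + (θ / 4) ^ 2 * ρ) +
        2 * Real.pi * θ * ((j : ℝ) + dt h (hv a))) := by
    rw [Real.exp_add, ← mul_assoc]
    have h7 : ‖sl τ a h j w‖ = (Real.exp (-(2 * Real.pi * θ * ((j : ℝ) + dt h (hv a)))) *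
        ‖sl τ a h j w‖) * Real.exp (2 * Real.pi * θ * ((j : ℝ) + dt h (hv a))) := by
      have h8 : Real.exp (-(2 * Real.pi * θ * ((j : ℝ) + dt h (hv a)))) *
          Real.exp (2 * Real.pi * θ * ((j : ℝ) + dt h (hv a))) = 1 := by
        rw [← Real.exp_add]; simp
      calc ‖sl τ a h j w‖ = 1 * ‖sl τ a h j w‖ := (one_mul _).symm
        _ = _ := by rw [← h8]; ring
    rw [h7]
    exact mul_le_mul_of_nonneg_right h2 (Real.exp_nonneg _)
  refine h6.trans (mul_le_mul_of_nonneg_left (Real.exp_le_exp.2 ?_) ht0)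
  have h9 : 8 * Real.pi * (Yq τ y + 2 * (θ / 4) * dt h y + (θ / 4) ^ 2 * ρ) +
        2 * Real.pi * θ * ((j : ℝ) + dt h (hv a)) =
      8 * Real.pi * Yq τ y + (2 * Real.pi * θ * X + Real.pi / 2 * θ ^ 2 * ρ) := by
    rw [hX]; ring
  have h10 : 2 * Real.pi * θ * X + Real.pi / 2 * θ ^ 2 * ρ = -(2 * Real.pi * (X ^ 2 / ρ)) := by
    rw [hθ]
    field_simp
    ring
  have h11 : lam * X ^ 2 ≤ X ^ 2 / ρ := by
    rw [le_div_iff₀ hρ]
    nlinarith [sq_nonneg X]
  rw [h9, h10]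
  nlinarith [Real.pi_pos]

end Pool.Agent.ARC.H97
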